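import Mathlib

/-!
# Standard p-functions, defined by regenerative events
-/

set_option autoImplicit false

open MeasureTheory Set Filter Topology

namespace Pool.Agent.Helper70.EV

/-- The events `E t`, `t ≥ 0`, on the probability space `(Ω, P)` have the regenerative property of
the function `p`: `P (E t₀ ∩ E t₁ ∩ ⋯ ∩ E tₙ) = p t₀ * P (E (t₁ - t₀) ∩ ⋯ ∩ E (tₙ - t₀))` for all
`0 ≤ t₀ ≤ t₁ ≤ ⋯ ≤ tₙ`. -/
structure Regenerative {Ω : Type} [MeasurableSpace Ω] (P : Measure Ω) (E : ℝ → Set Ω)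
    (p : ℝ → ℝ) : Prop where
  meas : ∀ t, 0 ≤ t → MeasurableSet (E t)
  regen : ∀ (n : ℕ) (t : Fin (n + 1) → ℝ), 0 ≤ t 0 → Monotone t →
    P.real (⋂ i, E (t i)) = p (t 0) * P.real (⋂ i : Fin n, E (t i.succ - t 0))

/-- p-functions (the values `p t` matter for `t ≥ 0` only). -/
def IsPFunction (p : ℝ → ℝ) : Prop :=
  p 0 = 1 ∧ ∃ (Ω : Type) (_ : MeasurableSpace Ω) (P : Measure Ω) (E : ℝ → Set Ω),
    IsProbabilityMeasure P ∧ Regenerative P E p

/-- Standard p-functions: `p t → 1` as `t → 0+`. -/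
def IsStandard (p : ℝ → ℝ) : Prop := IsPFunction p ∧ Tendsto p (𝓝[>] 0) (𝓝 1)

/-- `m(M; p)`, the infimum of `p t`, `0 ≤ t ≤ 1`. -/
noncomputable def minimum (p : ℝ → ℝ) : ℝ := sInf (p '' Icc 0 1)

/-- `I(M)`, the infimum of the numbers `m(M; p)` over the standard p-functions with `p 1 = M`. -/
noncomputable def lowest (M : ℝ) : ℝ := sInf {x | ∃ p, IsStandard p ∧ p 1 = M ∧ x = minimum p}

/-- The critical value `c`: the infimum of all `M` with `0 < M ≤ 1` and `I(M) > 0`. -/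
noncomputable def critical : ℝ := sInf {M | 0 < M ∧ M ≤ 1 ∧ 0 < lowest M}

end Pool.Agent.Helper70.EV
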