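import Pool.Agent.Helper70.EV.Defs

/-!
# Regenerative events with exponential holding times and gaps of constant length
-/

set_option autoImplicit false

open MeasureTheory Set Filter Topology ProbabilityTheory
open scoped ENNReal

namespace Pool.Agent.Helper70.EV.Ex

/-- the first letter in front of a sequence -/
def cons (y : ℝ) (ω : ℕ → ℝ) : ℕ → ℝ
  | 0 => y
  | n + 1 => ω n

theorem measurable_cons : Measurable fun z : ℝ × (ℕ → ℝ) => cons z.1 z.2 := by
  refine measurable_pi_iff.2 fun n => ?_
  cases n with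
  | zero => exact measurable_fst
  | succ n => exact (measurable_pi_apply n).comp measurable_snd

/-- The product of `μ` and of the infinite product of `μ` is the infinite product. -/
theorem map_cons (μ : Measure ℝ) [IsProbabilityMeasure μ] :
    (μ.prod (Measure.infinitePi fun _ : ℕ => μ)).map (fun z => cons z.1 z.2) =
      Measure.infinitePi fun _ : ℕ => μ := by
  classical
  refine Measure.eq_infinitePi (μ := fun _ : ℕ => μ) ?_
  intro s t ht
  obtain ⟨N, hN⟩ : ∃ N, s ⊆ Finset.range (N + 1) :=
    ⟨s.sup id, fun i hi => Finset.mem_range.2 (Nat.lt_succ_iff.2 (Finset.le_sup (f := id) hi))⟩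
  set t' : ℕ → Set ℝ := fun i => if i ∈ s then t i else univ with ht'
  have hm : ∀ i, MeasurableSet (t' i) := by
    intro i
    simp only [ht']
    split_ifs
    · exact ht i
    · exact MeasurableSet.univ
  have e1 : Set.pi (s : Set ℕ) t = Set.pi (Finset.range (N + 1) : Set ℕ) t' := by
    ext ω
    simp only [Set.mem_pi, Finset.mem_coe, ht']
    constructor
    · intro h i _
      split_ifs with hi
      · exact h i hi
      · trivial
    · intro h i hi
      have := h i (hN hi)
      rwa [if_pos hi] at this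
  have e2 : ∏ i ∈ s, μ (t i) = ∏ i ∈ Finset.range (N + 1), μ (t' i) := by
    rw [← Finset.prod_subset hN]
    · refine Finset.prod_congr rfl fun i hi => ?_
      simp only [ht', if_pos hi]
    · intro i _ hi
      simp only [ht', if_neg hi, measure_univ]
  rw [e1, e2, Measure.map_apply measurable_cons
    (MeasurableSet.pi (Set.to_countable _) fun i _ => hm i), Finset.prod_range_succ']
  have e3 : (fun z : ℝ × (ℕ → ℝ) => cons z.1 z.2) ⁻¹' (Set.pi (Finset.range (N + 1) : Set ℕ) t') =
      t' 0 ×ˢ Set.pi (Finset.range N : Set ℕ) fun i => t' (i + 1) := by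
    ext ⟨y, ω⟩
    simp only [mem_preimage, Set.mem_pi, Finset.mem_coe, Finset.mem_range, mem_prod]
    constructor
    · intro h
      exact ⟨h 0 (by omega), fun i hi => h (i + 1) (by omega)⟩
    · rintro ⟨h1, h2⟩ i hi
      cases i with
      | zero => exact h1
      | succ i => exact h2 i (by omega)
  rw [e3, Measure.prod_prod, Measure.infinitePi_pi _ fun i _ => hm (i + 1), mul_comm]

/-- partial sums -/
noncomputable def S (n : ℕ) (ω : ℕ → ℝ) : ℝ := ∑ k ∈ Finset.range n, |ω k|

theorem S_nonneg (n : ℕ) (ω : ℕ → ℝ) : 0 ≤ S n ω := Finset.sum_nonneg fun _ _ => abs_nonneg _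

theorem S_cons (n : ℕ) (y : ℝ) (ω : ℕ → ℝ) : S (n + 1) (cons y ω) = |y| + S n ω := by
  unfold S
  rw [Finset.sum_range_succ', add_comm]
  rfl

theorem measurable_S (n : ℕ) : Measurable (S n) := by
  unfold S
  exact Finset.measurable_sum _ fun k _ => (measurable_pi_apply k).abs

/-- The event: one of the visits of the state goes on at time `t`. The `n`-th visit starts at time
`S n ω + n x` and lasts for the time `|ω n|`. -/
def E (x t : ℝ) : Set (ℕ → ℝ) := {ω | ∃ n : ℕ, S n ω + n * x ≤ t ∧ t < S (n + 1) ω + n * x}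

theorem E_neg {x t : ℝ} (hx : 0 < x) (ht : t < 0) : E x t = ∅ := by
  ext ω
  simp only [E, mem_ofPred_eq, mem_empty_iff_false, iff_false, not_exists, not_and]
  intro n h
  exfalso
  have := S_nonneg n ω
  have : 0 ≤ (n : ℝ) * x := by positivity
  linarith

theorem cons_mem_E {x s : ℝ} (hs : 0 ≤ s) (y : ℝ) (ω : ℕ → ℝ) :
    cons y ω ∈ E x s ↔ s < |y| ∨ ω ∈ E x (s - |y| - x) := by
  simp only [E, mem_ofPred_eq]
  constructor
  · rintro ⟨n, h1, h2⟩
    cases n with
    | zero =>
      left
      rw [S_cons] at h2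
      simpa [S] using h2
    | succ n =>
      right
      rw [S_cons] at h1 h2
      push_cast at h1 h2
      exact ⟨n, by linarith, by linarith⟩
  · rintro (h | ⟨n, h1, h2⟩)
    · refine ⟨0, ?_, ?_⟩
      · simpa [S] using hs
      · rw [S_cons]
        simpa [S] using h
    · refine ⟨n + 1, ?_, ?_⟩
      · rw [S_cons]
        push_cast
        linarith
      · rw [S_cons]
        push_cast
        linarith

theorem measurableSet_prod (x s : ℝ) :
    MeasurableSet {z : ℝ × (ℕ → ℝ) | s < z.1 ∨ z.2 ∈ E x (s - z.1 - x)} := by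
  have e : {z : ℝ × (ℕ → ℝ) | s < z.1 ∨ z.2 ∈ E x (s - z.1 - x)} =
      {z | s < z.1} ∪ ⋃ n : ℕ, ({z | S n z.2 + n * x ≤ s - z.1 - x} ∩
        {z | s - z.1 - x < S (n + 1) z.2 + n * x}) := by
    ext z
    simp only [E, mem_ofPred_eq, mem_union, mem_iUnion, mem_inter_iff]
  rw [e]
  refine (measurableSet_lt measurable_const measurable_fst).union
    (MeasurableSet.iUnion fun n => ?_)
  have h1 : Measurable fun z : ℝ × (ℕ → ℝ) => s - z.1 - x :=
    (measurable_const.sub measurable_fst).sub measurable_const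
  have h2 : ∀ m : ℕ, Measurable fun z : ℝ × (ℕ → ℝ) => S m z.2 + n * x := fun m =>
    ((measurable_S m).comp measurable_snd).add measurable_const
  exact (measurableSet_le (h2 n) h1).inter (measurableSet_lt h1 (h2 (n + 1)))

theorem measurableSet_E (x t : ℝ) : MeasurableSet (E x t) := by
  have e : E x t = ⋃ n : ℕ, ({ω | S n ω + n * x ≤ t} ∩ {ω | t < S (n + 1) ω + n * x}) := by
    ext ω
    simp only [E, mem_ofPred_eq, mem_iUnion, mem_inter_iff]
  rw [e]
  refine MeasurableSet.iUnion fun n => ?_
  exact (measurableSet_le ((measurable_S n).add measurable_const) measurable_const).inter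
    (measurableSet_lt measurable_const ((measurable_S (n + 1)).add measurable_const))

/-- the probability measure -/
noncomputable def Pr (q : ℝ) : Measure (ℕ → ℝ) := Measure.infinitePi fun _ : ℕ => expMeasure q

/-- the density of the holding times -/
noncomputable def w (q y : ℝ) : ℝ≥0∞ := ENNReal.ofReal (q * Real.exp (-(q * y)))

theorem lintegral_exp {q : ℝ} (F : ℝ → ℝ≥0∞) (hF : Measurable fun y => F |y|) :
    ∫⁻ y, F |y| ∂(expMeasure q) = ∫⁻ y in Ioi 0, w q y * F y := by
  have h1 : expMeasure q = volume.withDensity (exponentialPDF q) := rfl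
  have hm : Measurable (exponentialPDF q) := (measurable_exponentialPDFReal q).ennreal_ofReal
  rw [h1, lintegral_withDensity_eq_lintegral_mul _ hm hF]
  have h2 : ∫⁻ y, (exponentialPDF q * fun y => F |y|) y =
      ∫⁻ y, (Ioi (0 : ℝ)).indicator (fun y => w q y * F y) y := by
    refine lintegral_congr_ae ?_
    have h0 : ∀ᵐ y : ℝ, y ≠ 0 := by
      simp [ae_iff]
    filter_upwards [h0] with y hy
    rcases lt_or_gt_of_ne hy with h | h
    · rw [Set.indicator_of_notMem (by simpa using h.le), Pi.mul_apply,
        exponentialPDF_of_neg h, zero_mul]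
    · rw [Set.indicator_of_mem (by simpa using h), Pi.mul_apply,
        exponentialPDF_of_nonneg h.le, abs_of_pos h]
      rfl
  rw [h2, lintegral_indicator measurableSet_Ioi]

/-- The first step. -/
theorem one_step {q x : ℝ} (hq : 0 < q) (L : Finset ℝ) (hL : ∀ s ∈ L, 0 ≤ s) :
    Pr q (⋂ s ∈ L, E x s) =
      ∫⁻ y in Ioi 0, w q y * Pr q {ω | ∀ s ∈ L, s < y ∨ ω ∈ E x (s - y - x)} := by
  have : IsProbabilityMeasure (expMeasure q) := isProbabilityMeasure_expMeasure hq
  have hP : IsProbabilityMeasure (Pr q) := by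
    unfold Pr
    infer_instance
  set F : ℝ → ℝ≥0∞ := fun y => Pr q {ω | ∀ s ∈ L, s < y ∨ ω ∈ E x (s - y - x)} with hF
  have hms : MeasurableSet {z : ℝ × (ℕ → ℝ) | ∀ s ∈ L, s < z.1 ∨ z.2 ∈ E x (s - z.1 - x)} := by
    have e : {z : ℝ × (ℕ → ℝ) | ∀ s ∈ L, s < z.1 ∨ z.2 ∈ E x (s - z.1 - x)} =
        ⋂ s ∈ L, {z | s < z.1 ∨ z.2 ∈ E x (s - z.1 - x)} := by
      ext z
      simp only [mem_ofPred_eq, mem_iInter]
    rw [e]
    exact Finset.measurableSet_biInter _ fun s _ => measurableSet_prod x s
  have hFm : Measurable F := measurable_measure_prodMk_left hms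
  rw [← lintegral_exp F (hFm.comp measurable_norm)]
  have hmL : MeasurableSet (⋂ s ∈ L, E x s) :=
    Finset.measurableSet_biInter _ fun s _ => measurableSet_E x s
  conv_lhs => rw [Pr, ← map_cons (expMeasure q)]
  rw [Measure.map_apply measurable_cons hmL, Measure.prod_apply (measurable_cons hmL)]
  refine lintegral_congr fun y => ?_
  congr 1
  ext ω
  simp only [mem_preimage, mem_iInter, mem_ofPred_eq]
  exact forall₂_congr fun s hs => cons_mem_E (hL s hs) y ω

theorem w_add (q y t : ℝ) :
    w q (y + t) = ENNReal.ofReal (Real.exp (-(q * t))) * w q y := by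
  unfold w
  rw [← ENNReal.ofReal_mul (Real.exp_pos _).le]
  congr 1
  rw [mul_left_comm, ← Real.exp_add]
  congr 2
  ring

/-- The part of the integral behind `t`. -/
theorem tail_int {q : ℝ} (t : ℝ) (G : ℝ → ℝ≥0∞) :
    ∫⁻ y in Ioi t, w q y * G (y - t) =
      ENNReal.ofReal (Real.exp (-(q * t))) * ∫⁻ y in Ioi 0, w q y * G y := by
  have h1 := (measurePreserving_sub_right (volume : Measure ℝ) t).setLIntegral_comp_preimage_emb
    (MeasurableEquiv.subRight t).measurableEmbedding (fun y => w q (y + t) * G y) (Ioi 0)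
  have e : (fun y : ℝ => y - t) ⁻¹' Ioi 0 = Ioi t := by
    ext y
    simp
  rw [e] at h1
  simp only [sub_add_cancel] at h1
  rw [h1, ← lintegral_const_mul' _ _ ENNReal.ofReal_ne_top]
  refine lintegral_congr fun y => ?_
  rw [w_add q y t, mul_assoc]

/-- The recursion for the events `E t ∩ ⋂ E (t + s)`. -/
theorem rec_A {q x : ℝ} (hq : 0 < q) (J : Finset ℝ) (hJ : ∀ s ∈ J, 0 ≤ s) {t : ℝ} (ht : 0 ≤ t) :
    Pr q (E x t ∩ ⋂ s ∈ J, E x (t + s)) =
      (∫⁻ y in Ioc 0 t, w q y * Pr q (E x (t - y - x) ∩ ⋂ s ∈ J, E x (t - y - x + s))) +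
        ENNReal.ofReal (Real.exp (-(q * t))) * Pr q (⋂ s ∈ J, E x s) := by
  classical
  have h1 := one_step (x := x) hq (insert t (J.image fun s => t + s)) (by
    intro s hs
    rcases Finset.mem_insert.1 hs with rfl | hs
    · exact ht
    · obtain ⟨a, ha, rfl⟩ := Finset.mem_image.1 hs
      exact add_nonneg ht (hJ a ha))
  have e1 : (⋂ s ∈ insert t (J.image fun s => t + s), E x s) =
      E x t ∩ ⋂ s ∈ J, E x (t + s) := by
    ext ω
    simp only [mem_iInter, mem_inter_iff, Finset.mem_insert, forall_eq_or_imp, Finset.mem_image,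
      forall_exists_index, and_imp, forall_apply_eq_imp_iff₂]
  rw [e1, ← Ioc_union_Ioi_eq_Ioi ht, lintegral_union measurableSet_Ioi (by
    rw [Set.disjoint_left]
    intro y hy1 hy2
    exact absurd hy1.2 (not_le.2 hy2))] at h1
  rw [h1]
  congr 1
  · refine setLIntegral_congr_fun measurableSet_Ioc fun y hy => ?_
    congr 2
    ext ω
    simp only [mem_ofPred_eq, mem_iInter, mem_inter_iff, Finset.mem_insert, forall_eq_or_imp,
      Finset.mem_image, forall_exists_index, and_imp, forall_apply_eq_imp_iff₂]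
    constructor
    · rintro ⟨h2, h3⟩
      refine ⟨h2.resolve_left (not_lt.2 hy.2), fun s hs => ?_⟩
      have := (h3 s hs).resolve_left (not_lt.2 (hy.2.trans (by linarith [hJ s hs])))
      have e : t - y - x + s = t + s - y - x := by ring
      rwa [e]
    · rintro ⟨h2, h3⟩
      refine ⟨Or.inr h2, fun s hs => Or.inr ?_⟩
      have := h3 s hs
      have e : t + s - y - x = t - y - x + s := by ring
      rwa [e]
  · rw [one_step hq J hJ, ← tail_int]
    refine setLIntegral_congr_fun measurableSet_Ioi fun y hy => ?_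
    congr 2
    ext ω
    simp only [mem_ofPred_eq, Finset.mem_insert, forall_eq_or_imp,
      Finset.mem_image, forall_exists_index, and_imp, forall_apply_eq_imp_iff₂]
    have hy' : t < y := hy
    constructor
    · rintro ⟨-, h3⟩ s hs
      rcases h3 s hs with h | h
      · left
        linarith
      · right
        have e : s - (y - t) - x = t + s - y - x := by ring
        rwa [e]
    · intro h3
      refine ⟨Or.inl hy', fun s hs => ?_⟩
      rcases h3 s hs with h | h
      · left
        linarith
      · right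
        have e : t + s - y - x = s - (y - t) - x := by ring
        rwa [e]

theorem rec_B {q x : ℝ} (hq : 0 < q) {t : ℝ} (ht : 0 ≤ t) :
    Pr q (E x t) = (∫⁻ y in Ioc 0 t, w q y * Pr q (E x (t - y - x))) +
        ENNReal.ofReal (Real.exp (-(q * t))) := by
  have : IsProbabilityMeasure (expMeasure q) := isProbabilityMeasure_expMeasure hq
  have : IsProbabilityMeasure (Pr q) := by
    unfold Pr
    infer_instance
  have h := rec_A (x := x) hq ∅ (by simp) ht
  simpa using h

/-- The regenerative property. -/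
theorem regen {q x : ℝ} (hq : 0 < q) (hx : 0 < x) (J : Finset ℝ) (hJ : ∀ s ∈ J, 0 ≤ s) (n : ℕ) :
    ∀ t : ℝ, t < n * x → Pr q (E x t ∩ ⋂ s ∈ J, E x (t + s)) =
      Pr q (E x t) * Pr q (⋂ s ∈ J, E x s) := by
  have : IsProbabilityMeasure (expMeasure q) := isProbabilityMeasure_expMeasure hq
  have hP : IsProbabilityMeasure (Pr q) := by
    unfold Pr
    infer_instance
  induction n with
  | zero =>
    intro t ht
    rw [E_neg hx (by simpa using ht)]
    simp
  | succ n ih =>
    intro t ht
    rcases lt_or_ge t 0 with h0 | h0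
    · rw [E_neg hx h0]
      simp
    · rw [rec_A hq J hJ h0, rec_B hq h0, add_mul,
        ← lintegral_mul_const' _ _ (measure_ne_top _ _)]
      congr 1
      refine setLIntegral_congr_fun measurableSet_Ioc fun y hy => ?_
      rw [ih (t - y - x) (by
        push_cast at ht
        have := hy.1
        linarith), mul_assoc]

end Pool.Agent.Helper70.EV.Ex
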