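import Pool.Agent.Helper70.EV.Ex

/-!
# Standard p-functions with `p 1 = M ≤ 1 / e` and a small value at `1 / 2`
-/

set_option autoImplicit false

open MeasureTheory Set Filter Topology ProbabilityTheory
open scoped ENNReal

namespace Pool.Agent.Helper70.EV.Ex

theorem isProb {q : ℝ} (hq : 0 < q) : IsProbabilityMeasure (Pr q) := by
  have : IsProbabilityMeasure (expMeasure q) := isProbabilityMeasure_expMeasure hq
  unfold Pr
  infer_instance

/-- the p-function of the example -/
noncomputable def pf (q x t : ℝ) : ℝ := (Pr q).real (E x t)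

theorem regenerative {q x : ℝ} (hq : 0 < q) (hx : 0 < x) :
    Regenerative (Pr q) (E x) (pf q x) where
  meas t _ := measurableSet_E x t
  regen n t ht hmono := by
    classical
    have hJ : ∀ s ∈ Finset.univ.image (fun i : Fin n => t i.succ - t 0), 0 ≤ s := by
      intro s hs
      obtain ⟨i, -, rfl⟩ := Finset.mem_image.1 hs
      exact sub_nonneg.2 (hmono (Fin.zero_le _))
    obtain ⟨m, hm⟩ := exists_nat_gt (t 0 / x)
    have h := regen hq hx _ hJ m (t 0) ((div_lt_iff₀ hx).1 hm)
    have e1 : (⋂ i, E x (t i)) = E x (t 0) ∩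
        ⋂ s ∈ Finset.univ.image (fun i : Fin n => t i.succ - t 0), E x (t 0 + s) := by
      ext ω
      simp only [mem_iInter, mem_inter_iff, Finset.mem_image, Finset.mem_univ, true_and,
        forall_exists_index, forall_apply_eq_imp_iff, add_sub_cancel]
      constructor
      · intro h
        exact ⟨h 0, fun i => h i.succ⟩
      · rintro ⟨h1, h2⟩ i
        induction i using Fin.cases with
        | zero => exact h1
        | succ i => exact h2 i
    have e2 : (⋂ i : Fin n, E x (t i.succ - t 0)) =
        ⋂ s ∈ Finset.univ.image (fun i : Fin n => t i.succ - t 0), E x s := by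
      ext ω
      simp only [mem_iInter, Finset.mem_image, Finset.mem_univ, true_and,
        forall_exists_index, forall_apply_eq_imp_iff]
    rw [e1, e2, pf, measureReal_def, measureReal_def, measureReal_def, h, ENNReal.toReal_mul]

theorem prob_small {q x t : ℝ} (hq : 0 < q) (hx : 0 < x) (ht0 : 0 ≤ t) (htx : t < x) :
    Pr q (E x t) = ENNReal.ofReal (Real.exp (-(q * t))) := by
  rw [rec_B hq ht0]
  have : ∫⁻ y in Ioc 0 t, w q y * Pr q (E x (t - y - x)) = 0 := by
    rw [← lintegral_zero (μ := volume.restrict (Ioc 0 t))]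
    refine setLIntegral_congr_fun measurableSet_Ioc fun y hy => ?_
    have h1 := hy.1
    have h2 := hy.2
    show w q y * Pr q (E x (t - y - x)) = 0
    rw [E_neg hx (by linarith), measure_empty, mul_zero]
  rw [this, zero_add]

theorem prob_mid {q x t : ℝ} (hq : 0 < q) (hx : 0 < x) (htx : x ≤ t) (ht2 : t < 2 * x) :
    Pr q (E x t) = ENNReal.ofReal (Real.exp (-(q * t)) +
      q * (t - x) * Real.exp (-(q * (t - x)))) := by
  have ht0 : 0 ≤ t := hx.le.trans htx
  rw [rec_B hq ht0]
  have h1 : ∫⁻ y in Ioc 0 t, w q y * Pr q (E x (t - y - x)) =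
      ∫⁻ y in Ioc 0 (t - x), ENNReal.ofReal (q * Real.exp (-(q * (t - x)))) := by
    rw [← lintegral_indicator measurableSet_Ioc, ← lintegral_indicator measurableSet_Ioc]
    refine lintegral_congr fun y => ?_
    by_cases hy0 : 0 < y
    · by_cases hy1 : y ≤ t - x
      · rw [indicator_of_mem (show y ∈ Ioc 0 t from ⟨hy0, by linarith⟩),
          indicator_of_mem (show y ∈ Ioc 0 (t - x) from ⟨hy0, hy1⟩),
          prob_small hq hx (by linarith) (by linarith), w,
          ← ENNReal.ofReal_mul (by positivity)]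
        congr 1
        rw [mul_assoc, ← Real.exp_add]
        congr 2
        ring
      · push Not at hy1
        rw [indicator_of_notMem (show y ∉ Ioc 0 (t - x) from fun h => absurd h.2 (not_le.2 hy1))]
        by_cases hy2 : y ≤ t
        · rw [indicator_of_mem (show y ∈ Ioc 0 t from ⟨hy0, hy2⟩),
            E_neg hx (by linarith), measure_empty, mul_zero]
        · rw [indicator_of_notMem (show y ∉ Ioc 0 t from fun h => hy2 h.2)]
    · rw [indicator_of_notMem (show y ∉ Ioc 0 t from fun h => hy0 h.1),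
        indicator_of_notMem (show y ∉ Ioc 0 (t - x) from fun h => hy0 h.1)]
  rw [h1, setLIntegral_const, Real.volume_Ioc, sub_zero,
    ← ENNReal.ofReal_mul (by positivity), ← ENNReal.ofReal_add (by
      have : 0 ≤ t - x := sub_nonneg.2 htx
      positivity) (Real.exp_pos _).le]
  congr 1
  ring

theorem isStandard {q x : ℝ} (hq : 0 < q) (hx : 0 < x) : IsStandard (pf q x) := by
  have hP := isProb hq
  have hsm : ∀ t, 0 ≤ t → t < x → pf q x t = Real.exp (-(q * t)) := by
    intro t h0 h1
    rw [pf, measureReal_def, prob_small hq hx h0 h1, ENNReal.toReal_ofReal (Real.exp_pos _).le]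
  refine ⟨⟨by rw [hsm 0 le_rfl hx]; simp, _, _, Pr q, E x, hP, regenerative hq hx⟩, ?_⟩
  have h1 : Tendsto (fun t : ℝ => Real.exp (-(q * t))) (𝓝[>] 0) (𝓝 1) := by
    have : Continuous fun t : ℝ => Real.exp (-(q * t)) := by fun_prop
    have h2 := (this.tendsto 0).mono_left (nhdsWithin_le_nhds (s := Ioi 0))
    simpa using h2
  refine h1.congr' ?_
  filter_upwards [Ioo_mem_nhdsGT hx] with t ht
  exact (hsm t ht.1.le ht.2).symm

theorem exists_example {M : ℝ} (hM0 : 0 < M) (hM1 : M ≤ Real.exp (-1)) {δ : ℝ} (hδ : 0 < δ) :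
    ∃ p : ℝ → ℝ, IsStandard p ∧ p 1 = M ∧ p (1 / 2) < δ := by
  obtain ⟨q, hq3, hqM, hqδ⟩ : ∃ q : ℝ, 3 ≤ q ∧ Real.exp (-q) < M ∧ Real.exp (-(q / 2)) < δ := by
    have h1 : Tendsto (fun q : ℝ => Real.exp (-q)) atTop (𝓝 0) := Real.tendsto_exp_neg_atTop_nhds_zero
    have h2 : Tendsto (fun q : ℝ => Real.exp (-(q / 2))) atTop (𝓝 0) :=
      Real.tendsto_exp_neg_atTop_nhds_zero.comp (tendsto_id.atTop_div_const (by norm_num))
    obtain ⟨q, h3, h4, h5⟩ := ((h1.eventually_lt_const hM0).and
      ((h2.eventually_lt_const hδ).and (eventually_ge_atTop 3))).exists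
    exact ⟨q, h5, h3, h4⟩
  have hq : 0 < q := by linarith
  -- the length of the rest
  obtain ⟨y, hy, hyM⟩ : ∃ y ∈ Icc (0 : ℝ) 1, y * Real.exp (-y) = M - Real.exp (-q) := by
    have hc : ContinuousOn (fun y : ℝ => y * Real.exp (-y)) (Icc 0 1) := by fun_prop
    have := intermediate_value_Icc (zero_le_one' ℝ) hc
    refine this ⟨?_, ?_⟩
    · simpa using hqM.le
    · have := Real.exp_pos (-q)
      simp only [one_mul]
      linarith
  set x : ℝ := 1 - y / q with hx
  have h1 : y / q < 1 / 2 := by
    rw [div_lt_iff₀ hq]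
    linarith [hy.2]
  have h2 : 0 ≤ y / q := div_nonneg hy.1 hq.le
  have hx0 : 0 < x := by linarith
  refine ⟨pf q x, isStandard hq hx0, ?_, ?_⟩
  · have e : q * (1 - x) = y := by
      rw [hx]
      field_simp
      ring
    rw [pf, measureReal_def, prob_mid hq hx0 (by linarith) (by linarith), e,
      ENNReal.toReal_ofReal (by
        have := hy.1
        positivity), mul_one, hyM]
    ring
  · rw [pf, measureReal_def, prob_small hq hx0 (by norm_num) (by linarith),
      ENNReal.toReal_ofReal (Real.exp_pos _).le]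
    have e : q * (1 / 2) = q / 2 := by ring
    rwa [e]

end Pool.Agent.Helper70.EV.Ex
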