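import Pool.Agent.Helper70.EV.Defs
import Pool.Agent.Helper70.Ren7

/-!
# The skeletons of a p-function are renewal sequences
-/

set_option autoImplicit false

open MeasureTheory Set Filter Topology

namespace Pool.Agent.Helper70.EV

variable {Ω : Type} [MeasurableSpace Ω] {P : Measure Ω} {E : ℝ → Set Ω} {p : ℝ → ℝ}

/-- The regenerative property for finite sets of times. -/
theorem Regenerative.peel (h : Regenerative P E p) {t : ℝ} (ht : 0 ≤ t) (J : Finset ℝ)
    (hJ : ∀ s ∈ J, 0 ≤ s) :
    P.real (E t ∩ ⋂ s ∈ J, E (t + s)) = p t * P.real (⋂ s ∈ J, E s) := by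
  have h1 := h.regen J.card (Fin.cons t fun i => t + J.orderEmbOfFin rfl i) (by simpa using ht) (by
    intro a b hab
    induction a using Fin.cases with
    | zero =>
      induction b using Fin.cases with
      | zero => rfl
      | succ b =>
        simp only [Fin.cons_zero, Fin.cons_succ]
        have := hJ _ (J.orderEmbOfFin_mem rfl b)
        linarith
    | succ a =>
      induction b using Fin.cases with
      | zero =>
        exfalso
        have := Fin.le_def.1 hab
        simp at this
      | succ b =>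
        simp only [Fin.cons_succ]
        have : a ≤ b := Fin.succ_le_succ_iff.1 hab
        have := (J.orderEmbOfFin rfl).monotone this
        linarith)
  have e1 : (⋂ i, E ((Fin.cons t fun i => t + J.orderEmbOfFin rfl i : Fin (J.card + 1) → ℝ) i)) =
      E t ∩ ⋂ s ∈ J, E (t + s) := by
    ext x
    simp only [mem_iInter, mem_inter_iff]
    constructor
    · intro hx
      refine ⟨by simpa using hx 0, fun s hs => ?_⟩
      have : s ∈ Set.range (J.orderEmbOfFin rfl) := by
        rw [Finset.range_orderEmbOfFin]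
        exact hs
      obtain ⟨i, rfl⟩ := this
      simpa using hx i.succ
    · rintro ⟨hx1, hx2⟩ i
      induction i using Fin.cases with
      | zero => simpa using hx1
      | succ i => simpa using hx2 _ (J.orderEmbOfFin_mem rfl i)
  have e2 : (⋂ i : Fin J.card, E ((Fin.cons t fun i => t + J.orderEmbOfFin rfl i :
      Fin (J.card + 1) → ℝ) i.succ - (Fin.cons t fun i => t + J.orderEmbOfFin rfl i :
      Fin (J.card + 1) → ℝ) 0)) = ⋂ s ∈ J, E s := by
    ext x
    simp only [mem_iInter, Fin.cons_succ, Fin.cons_zero, add_sub_cancel_left]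
    constructor
    · intro hx s hs
      have : s ∈ Set.range (J.orderEmbOfFin rfl) := by
        rw [Finset.range_orderEmbOfFin]
        exact hs
      obtain ⟨i, rfl⟩ := this
      exact hx i
    · intro hx i
      exact hx _ (J.orderEmbOfFin_mem rfl i)
  rw [e1, e2] at h1
  simpa using h1

theorem measI (h : Regenerative P E p) (t : ℝ) (J : Finset ℝ) (ht : 0 ≤ t)
    (hJ : ∀ s ∈ J, 0 ≤ s) : MeasurableSet (⋂ s ∈ J, E (t + s)) :=
  Finset.measurableSet_biInter _ fun s hs => h.meas _ (add_nonneg ht (hJ s hs))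

/-- The regenerative property with complementary events. -/
theorem Regenerative.peel_compl [IsProbabilityMeasure P] (h : Regenerative P E p) {t : ℝ}
    (ht : 0 ≤ t) (K : Finset ℝ) :
    ∀ J : Finset ℝ, (∀ s ∈ J, 0 ≤ s) → (∀ s ∈ K, 0 ≤ s) →
    P.real (E t ∩ (⋂ s ∈ J, E (t + s)) ∩ ⋂ s ∈ K, (E (t + s))ᶜ) =
      p t * P.real ((⋂ s ∈ J, E s) ∩ ⋂ s ∈ K, (E s)ᶜ) := by
  classical
  induction K using Finset.induction_on with
  | empty =>
    intro J hJ _
    simpa using h.peel ht J hJ
  | insert a K ha ih =>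
    intro J hJ hK
    have hK' : ∀ s ∈ K, 0 ≤ s := fun s hs => hK s (Finset.mem_insert_of_mem hs)
    have ha0 : 0 ≤ a := hK a (Finset.mem_insert_self _ _)
    have h1 := ih J hJ hK'
    have h2 := ih (insert a J) (by
      intro s hs
      rcases Finset.mem_insert.1 hs with rfl | hs
      · exact ha0
      · exact hJ s hs) hK'
    have key : ∀ (X Y : Set Ω), MeasurableSet Y → P.real (X ∩ Yᶜ) = P.real X - P.real (X ∩ Y) := by
      intro X Y hY
      have := measureReal_inter_add_sdiff (μ := P) (s := X) hY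
      rw [Set.sdiff_eq] at this
      linarith
    have e1 : E t ∩ (⋂ s ∈ J, E (t + s)) ∩ (⋂ s ∈ insert a K, (E (t + s))ᶜ) =
        (E t ∩ (⋂ s ∈ J, E (t + s)) ∩ (⋂ s ∈ K, (E (t + s))ᶜ)) ∩ (E (t + a))ᶜ := by
      ext x
      simp only [mem_inter_iff, mem_iInter, Finset.mem_insert, forall_eq_or_imp, mem_compl_iff]
      tauto
    have e2 : E t ∩ (⋂ s ∈ insert a J, E (t + s)) ∩ (⋂ s ∈ K, (E (t + s))ᶜ) =
        (E t ∩ (⋂ s ∈ J, E (t + s)) ∩ (⋂ s ∈ K, (E (t + s))ᶜ)) ∩ E (t + a) := by
      ext x
      simp only [mem_inter_iff, mem_iInter, Finset.mem_insert, forall_eq_or_imp, mem_compl_iff]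
      tauto
    have e3 : (⋂ s ∈ J, E s) ∩ (⋂ s ∈ insert a K, (E s)ᶜ) =
        ((⋂ s ∈ J, E s) ∩ (⋂ s ∈ K, (E s)ᶜ)) ∩ (E a)ᶜ := by
      ext x
      simp only [mem_inter_iff, mem_iInter, Finset.mem_insert, forall_eq_or_imp, mem_compl_iff]
      tauto
    have e4 : (⋂ s ∈ insert a J, E s) ∩ (⋂ s ∈ K, (E s)ᶜ) =
        ((⋂ s ∈ J, E s) ∩ (⋂ s ∈ K, (E s)ᶜ)) ∩ E a := by
      ext x
      simp only [mem_inter_iff, mem_iInter, Finset.mem_insert, forall_eq_or_imp, mem_compl_iff]
      tauto
    rw [e1, e3, key _ _ (h.meas _ (add_nonneg ht ha0)), key _ _ (h.meas _ ha0), ← e2, ← e4, h1, h2]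
    ring

/-- The probability of the first return at the `n`-th point of the skeleton. -/
noncomputable def ret (P : Measure Ω) (E : ℝ → Set Ω) (h : ℝ) : ℕ → ℝ
  | 0 => 0
  | n + 1 => P.real (E ((n + 1 : ℕ) * h) ∩ ⋂ i ∈ Finset.range n, (E ((i + 1 : ℕ) * h))ᶜ)

/-- The power series of the first return probabilities. -/
noncomputable def retSer (P : Measure Ω) (E : ℝ → Set Ω) (h : ℝ) : PowerSeries ℝ :=
  PowerSeries.mk (ret P E h)

theorem Regenerative.prob [IsProbabilityMeasure P] (h : Regenerative P E p) {t : ℝ}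
    (ht : 0 ≤ t) : P.real (E t) = p t := by
  have := h.peel ht ∅ (by simp)
  simpa using this

theorem ret_nonneg (P : Measure Ω) (E : ℝ → Set Ω) (h : ℝ) (n : ℕ) : 0 ≤ ret P E h n := by
  cases n with
  | zero => exact le_rfl
  | succ n => exact measureReal_nonneg

theorem sum_ret [IsProbabilityMeasure P] (H : Regenerative P E p) {h : ℝ} (hh : 0 ≤ h) (n : ℕ) :
    ∑ k ∈ Finset.range n, ret P E h (k + 1) =
      1 - P.real (⋂ i ∈ Finset.range n, (E ((i + 1 : ℕ) * h))ᶜ) := by
  induction n with
  | zero => simp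
  | succ n ih =>
    rw [Finset.sum_range_succ, ih]
    have hm : MeasurableSet (E ((n + 1 : ℕ) * h)) := H.meas _ (by positivity)
    have h1 := measureReal_inter_add_sdiff (μ := P)
      (s := ⋂ i ∈ Finset.range n, (E ((i + 1 : ℕ) * h))ᶜ) hm
    have e1 : (⋂ i ∈ Finset.range (n + 1), (E ((i + 1 : ℕ) * h))ᶜ) =
        (⋂ i ∈ Finset.range n, (E ((i + 1 : ℕ) * h))ᶜ) \ E ((n + 1 : ℕ) * h) := by
      ext x
      simp only [mem_iInter, Finset.mem_range, mem_compl_iff, Set.mem_sdiff, Nat.lt_succ_iff]
      constructor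
      · intro hx
        exact ⟨fun i hi => hx i hi.le, hx n le_rfl⟩
      · rintro ⟨hx1, hx2⟩ i hi
        rcases hi.lt_or_eq with hi | rfl
        · exact hx1 i hi
        · exact hx2
    have h2 : ret P E h (n + 1) = P.real (E ((n + 1 : ℕ) * h) ∩
        ⋂ i ∈ Finset.range n, (E ((i + 1 : ℕ) * h))ᶜ) := rfl
    rw [e1, h2, inter_comm]
    linarith

theorem retSer_ren [IsProbabilityMeasure P] (H : Regenerative P E p) {h : ℝ} (hh : 0 ≤ h) :
    Ren (retSer P E h) where
  nn n := by
    rw [retSer, PowerSeries.coeff_mk]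
    exact ret_nonneg _ _ _ _
  zero := by
    rw [retSer, PowerSeries.coeff_mk]
    rfl
  mass n := by
    unfold ps retSer
    simp only [PowerSeries.coeff_mk]
    cases n with
    | zero => simp
    | succ n =>
      rw [Finset.sum_range_succ', sum_ret H hh]
      have : (0 : ℝ) ≤ P.real (⋂ i ∈ Finset.range n, (E ((i + 1 : ℕ) * h))ᶜ) := measureReal_nonneg
      have h0 : ret P E h 0 = 0 := rfl
      linarith

/-- The renewal equation, by the last visit. -/
theorem renewal_eq [IsProbabilityMeasure P] (H : Regenerative P E p) (hp : p 0 = 1) {h : ℝ}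
    (hh : 0 ≤ h) (n : ℕ) :
    p ((n + 1 : ℕ) * h) = ∑ j ∈ Finset.range (n + 1), ret P E h (j + 1) * p ((n - j : ℕ) * h) := by
  have step : ∀ m : ℕ, m ≤ n + 1 →
      p ((n + 1 : ℕ) * h) = ∑ j ∈ Finset.range m, ret P E h (j + 1) * p ((n - j : ℕ) * h) +
        P.real (E ((n + 1 : ℕ) * h) ∩ ⋂ i ∈ Finset.range m, (E ((n - i : ℕ) * h))ᶜ) := by
    intro m
    induction m with
    | zero =>
      intro _
      have := H.prob (t := ((n + 1 : ℕ) : ℝ) * h) (by positivity)
      rw [← this]
      simp
    | succ m ih =>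
      intro hm
      have hmn : m ≤ n := by omega
      rw [ih (by omega), Finset.sum_range_succ, add_assoc]
      congr 1
      have hmeas : MeasurableSet (E ((n - m : ℕ) * h)) := H.meas _ (by positivity)
      have h1 := measureReal_inter_add_sdiff (μ := P)
        (s := E ((n + 1 : ℕ) * h) ∩ ⋂ i ∈ Finset.range m, (E ((n - i : ℕ) * h))ᶜ) hmeas
      rw [← h1]
      congr 1
      · -- the last visit is at `n - m`
        have h2 := H.peel_compl (t := ((n - m : ℕ) : ℝ) * h) (by positivity)
          ((Finset.range m).image fun i => ((i + 1 : ℕ) : ℝ) * h) {((m + 1 : ℕ) : ℝ) * h} (by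
            intro s hs
            rw [Finset.mem_singleton] at hs
            rw [hs]
            positivity) (by
            intro s hs
            obtain ⟨i, -, rfl⟩ := Finset.mem_image.1 hs
            positivity)
        have e1 : (E ((n + 1 : ℕ) * h) ∩ ⋂ i ∈ Finset.range m, (E ((n - i : ℕ) * h))ᶜ) ∩
            E ((n - m : ℕ) * h) =
            E (((n - m : ℕ) : ℝ) * h) ∩ (⋂ s ∈ ({((m + 1 : ℕ) : ℝ) * h} : Finset ℝ),
              E (((n - m : ℕ) : ℝ) * h + s)) ∩
              ⋂ s ∈ (Finset.range m).image fun i => ((i + 1 : ℕ) : ℝ) * h,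
                (E (((n - m : ℕ) : ℝ) * h + s))ᶜ := by
          have a1 : ((n + 1 : ℕ) : ℝ) * h = ((n - m : ℕ) : ℝ) * h + ((m + 1 : ℕ) : ℝ) * h := by
            rw [← add_mul]
            congr 1
            rw [← Nat.cast_add]
            congr 1
            omega
          have a2 : ∀ i, i < m → ((n - (m - 1 - i) : ℕ) : ℝ) * h =
              ((n - m : ℕ) : ℝ) * h + ((i + 1 : ℕ) : ℝ) * h := by
            intro i hi
            rw [← add_mul]
            congr 1
            rw [← Nat.cast_add]
            congr 1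
            omega
          ext x
          simp only [mem_inter_iff, mem_iInter, Finset.mem_range, mem_compl_iff,
            Finset.mem_singleton, forall_eq, Finset.mem_image, forall_exists_index, and_imp,
            forall_apply_eq_imp_iff₂]
          rw [a1]
          constructor
          · rintro ⟨⟨hx1, hx2⟩, hx3⟩
            refine ⟨⟨hx3, hx1⟩, fun i hi => ?_⟩
            rw [← a2 i hi]
            exact hx2 _ (by omega)
          · rintro ⟨⟨hx1, hx2⟩, hx3⟩
            refine ⟨⟨hx2, fun i hi => ?_⟩, hx1⟩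
            have := hx3 (m - 1 - i) (by omega)
            rw [← a2 _ (by omega)] at this
            have e : m - 1 - (m - 1 - i) = i := by omega
            rwa [e] at this
        rw [e1, h2, mul_comm]
        congr 1
        unfold ret
        congr 1
        ext x
        simp only [mem_inter_iff, mem_iInter, Finset.mem_range, mem_compl_iff,
            Finset.mem_singleton, forall_eq, Finset.mem_image, forall_exists_index, and_imp,
            forall_apply_eq_imp_iff₂]
      · congr 1
        ext x
        simp only [Set.mem_sdiff, mem_inter_iff, mem_iInter, Finset.mem_range, mem_compl_iff,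
          Nat.lt_succ_iff]
        constructor
        · rintro ⟨⟨hx1, hx2⟩, hx3⟩
          refine ⟨hx1, fun i hi => ?_⟩
          rcases hi.lt_or_eq with hi | rfl
          · exact hx2 i hi
          · exact hx3
        · rintro ⟨hx1, hx2⟩
          exact ⟨⟨hx1, fun i hi => hx2 i hi.le⟩, hx2 m le_rfl⟩
  rw [step (n + 1) le_rfl]
  have hz : P.real (E ((n + 1 : ℕ) * h) ∩
      ⋂ i ∈ Finset.range (n + 1), (E ((n - i : ℕ) * h))ᶜ) = 0 := by
    have h0 : P.real (E 0)ᶜ = 0 := by
      rw [measureReal_compl (H.meas 0 le_rfl), H.prob le_rfl, hp]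
      simp
    refine le_antisymm ?_ measureReal_nonneg
    rw [← h0]
    refine measureReal_mono ?_
    intro x hx
    have := mem_iInter₂.1 hx.2 n (Finset.mem_range.2 (Nat.lt_succ_self n))
    simpa using this
  rw [hz, add_zero]

/-- The skeleton is the renewal sequence of the first return probabilities. -/
theorem u_retSer [IsProbabilityMeasure P] (H : Regenerative P E p) (hp : p 0 = 1) {h : ℝ}
    (hh : 0 ≤ h) (n : ℕ) : PowerSeries.coeff n (u (retSer P E h)) = p (n * h) := by
  have h0 : PowerSeries.coeff 0 (retSer P E h) = 0 := (retSer_ren H hh).zero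
  induction n using Nat.strong_induction_on with
  | _ n ih =>
    cases n with
    | zero =>
      rw [u_zero h0]
      simp [hp]
    | succ n =>
      rw [u_rec h0, renewal_eq H hp hh n]
      refine Finset.sum_congr rfl fun j hj => ?_
      rw [ih _ (by omega), retSer, PowerSeries.coeff_mk]

theorem abs_sub_le [IsProbabilityMeasure P] (H : Regenerative P E p) {s h : ℝ} (hs : 0 ≤ s)
    (hh : 0 ≤ h) : |p (s + h) - p s| ≤ 1 - p h := by
  have ps1 : p s ≤ 1 := by
    rw [← H.prob hs]
    exact measureReal_le_one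
  have ps0 : 0 ≤ p s := by
    rw [← H.prob hs]
    exact measureReal_nonneg
  have ph1 : p h ≤ 1 := by
    rw [← H.prob hh]
    exact measureReal_le_one
  have ph0 : 0 ≤ p h := by
    rw [← H.prob hh]
    exact measureReal_nonneg
  have h1 : P.real (E h ∩ E (h + s)) = p h * p s := by
    have := H.peel hh {s} (by simpa using hs)
    simpa [H.prob hs] using this
  have h2 := measureReal_inter_add_sdiff (μ := P) (s := E (h + s)) (H.meas h hh)
  have h3 : P.real (E (h + s) \ E h) ≤ 1 - p h := by
    calc P.real (E (h + s) \ E h) ≤ P.real (E h)ᶜ := measureReal_mono fun x hx => hx.2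
      _ = 1 - p h := by
        rw [measureReal_compl (H.meas h hh), H.prob hh]
        simp
  have h4 : (0 : ℝ) ≤ P.real (E (h + s) \ E h) := measureReal_nonneg
  rw [inter_comm, h1, H.prob (add_nonneg hh hs)] at h2
  rw [add_comm s h, abs_le]
  constructor
  · nlinarith
  · nlinarith

end Pool.Agent.Helper70.EV
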