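import Pool.Agent.Helper70.EV.Skel

/-!
# If a standard p-function is small somewhere in `[0, 1]`, then `p 1` is at most about `1 / e`
-/

set_option autoImplicit false

open MeasureTheory Set Filter Topology

namespace Pool.Agent.Helper70.EV

theorem upper {M0 : ℝ} (hM : Real.exp (-1) < M0) :
    ∃ δ : ℝ, 0 < δ ∧ ∀ p : ℝ → ℝ, IsStandard p → (∃ t ∈ Icc (0 : ℝ) 1, p t < δ) → p 1 ≤ M0 := by
  obtain ⟨ε, q0, hε, hq0, -, hmain⟩ := renewal_main hM
  refine ⟨ε, hε, ?_⟩
  rintro p ⟨⟨hp0, Ω, mΩ, P, E, hP, H⟩, hst⟩ ⟨t, ht, htε⟩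
  set κ : ℝ := min (ε - p t) q0 with hκ
  have hκ0 : 0 < κ := lt_min (by linarith) hq0
  have hev : ∀ᶠ y in 𝓝[>] (0 : ℝ), 1 - κ < p y := hst.eventually (lt_mem_nhds (by linarith))
  obtain ⟨η, hη0, hη⟩ := mem_nhdsGT_iff_exists_Ioo_subset.1 hev
  simp only [mem_Ioi] at hη0
  have hsmall : ∀ y, 0 ≤ y → y < η → 1 - p y ≤ κ := by
    intro y hy0 hy1
    rcases hy0.lt_or_eq with h | rfl
    · have := hη ⟨h, hy1⟩
      simp only [mem_ofPred_eq] at this
      linarith
    · rw [hp0]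
      linarith
  obtain ⟨N, hN⟩ := exists_nat_gt (1 / η)
  have hNpos : (0 : ℝ) < N := lt_of_le_of_lt (by positivity) hN
  have hN0 : N ≠ 0 := by
    rintro rfl
    simp at hNpos
  set h : ℝ := 1 / N with hh
  have hh0 : 0 < h := by positivity
  have hhη : h < η := by
    rw [hh, div_lt_iff₀ hNpos]
    rw [div_lt_iff₀ hη0] at hN
    linarith
  have hNh : (N : ℝ) * h = 1 := by
    rw [hh]
    field_simp
  have hr : r (retSer P E h) 1 ≤ q0 := by
    have e : r (retSer P E h) 1 = 1 - p h := by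
      unfold r ps retSer
      simp only [PowerSeries.coeff_mk, Finset.sum_range_succ, Finset.sum_range_zero]
      have h1 : ret P E h 1 = p h := by
        show P.real (E ((0 + 1 : ℕ) * h) ∩ ⋂ i ∈ Finset.range 0, (E ((i + 1 : ℕ) * h))ᶜ) = p h
        simp [H.prob hh0.le]
      have h0 : ret P E h 0 = 0 := rfl
      rw [h0, h1]
      ring
    rw [e]
    exact (hsmall h hh0.le hhη).trans (min_le_right _ _)
  set s : ℕ := ⌊t * N⌋₊ with hs
  have hs1 : (s : ℝ) ≤ t * N := Nat.floor_le (by have := ht.1; positivity)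
  have hs2 : t * N < s + 1 := Nat.lt_floor_add_one _
  have hsh : (s : ℝ) * h ≤ t := by
    rw [hh, mul_one_div, div_le_iff₀ hNpos]
    exact hs1
  have hsh2 : t < (s : ℝ) * h + h := by
    rw [hh]
    have : (s : ℝ) * (1 / N) + 1 / N = (s + 1) / N := by ring
    rw [this, lt_div_iff₀ hNpos]
    exact hs2
  have hsN : s ≤ N := by
    rw [hs]
    refine Nat.floor_le_of_le ?_
    have := ht.2
    nlinarith
  have h3 := hmain _ (retSer_ren H hh0.le) hr s N hsN
  rw [u_retSer H hp0 hh0.le, u_retSer H hp0 hh0.le, hNh] at h3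
  refine h3 ?_
  have h4 := abs_sub_le H (s := (s : ℝ) * h) (h := t - s * h) (by positivity) (by linarith)
  have h5 := hsmall (t - s * h) (by linarith) (by linarith)
  rw [add_sub_cancel] at h4
  have h6 := (abs_le.1 h4).1
  have h7 : κ ≤ ε - p t := min_le_left _ _
  linarith

end Pool.Agent.Helper70.EV
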